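import Pool.Agent.Lib.helper22.CXBinC

namespace Pool.Agent.H.MP_406c0a_lc

open Pool.Agent.Lib.CX Finset

/-- adjacency in the king's graph -/
def adj (c d : ℕ × ℕ) : Prop := max (Nat.dist c.1 d.1) (Nat.dist c.2 d.2) = 1

/-- `n ≥ 1` and all words are sequences of at least two distinct letters from `1, …, n²` -/
def Valid (a : List Unit × List (List ℕ)) : Prop :=
  1 ≤ a.1.length ∧ ∀ w ∈ a.2, 2 ≤ w.length ∧ w.Nodup ∧ ∀ x ∈ w, 1 ≤ x ∧ x ≤ a.1.length ^ 2

/-- all words occur in some `n × n` board -/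
def Solv (n : ℕ) (P : List (List ℕ)) : Prop :=
  ∃ B : Fin n × Fin n → ℕ, Set.BijOn B Set.univ (Set.Icc 1 (n ^ 2)) ∧
    ∀ w ∈ P, w.IsChain fun x y => ∃ c d, B c = x ∧ B d = y ∧ adj (c.1, c.2) (d.1, d.2)

instance (c d : ℕ × ℕ) : Decidable (adj c d) := by unfold adj; infer_instance

theorem adj_iff {c d : ℕ × ℕ} : adj c d ↔ (c.1 ≠ d.1 ∨ c.2 ≠ d.2) ∧ c.1 ≤ d.1 + 1 ∧ d.1 ≤ c.1 + 1 ∧
    c.2 ≤ d.2 + 1 ∧ d.2 ≤ c.2 + 1 := by
  simp only [adj, Nat.dist]; omega

theorem solv_of {n : ℕ} {P : List (List ℕ)} (U : Set ℕ) (hU : U ⊆ Set.Icc 1 (n ^ 2)) (f : ℕ → ℕ × ℕ)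
    (h1 : ∀ x ∈ U, (f x).1 < n ∧ (f x).2 < n) (h2 : U.InjOn f) (h3 : ∀ w ∈ P, ∀ x ∈ w, x ∈ U)
    (h4 : ∀ w ∈ P, w.IsChain fun x y => adj (f x) (f y)) : Solv n P := by
  classical
  let F : U → Fin n × Fin n := fun x => (⟨_, (h1 x x.2).1⟩, ⟨_, (h1 x x.2).2⟩)
  have hF : F.Injective := fun x y h => Subtype.ext (h2 x.2 y.2 (by
    simp only [F, Prod.mk.injEq, Fin.mk.injEq] at h; exact Prod.ext h.1 h.2))
  obtain ⟨g, hg⟩ := exists_equiv_extend_of_card_eq (α := Fin n × Fin n) (t := Icc 1 (n ^ 2)) (by simp [sq])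
    (s := univ.filter (· ∈ Set.range F)) (f := Function.extend F Subtype.val 0) (fun x hx => by
      simp only [mem_image, mem_filter, mem_univ, true_and] at hx
      obtain ⟨_, ⟨y, rfl⟩, rfl⟩ := hx
      rw [hF.extend_apply]; simpa using hU y.2) (by
      rintro _ hx _ hy h
      obtain ⟨x, rfl⟩ : _ ∈ Set.range F := by simpa using hx
      obtain ⟨y, rfl⟩ : _ ∈ Set.range F := by simpa using hy
      rw [hF.extend_apply, hF.extend_apply] at h
      rw [Subtype.ext h])
  refine ⟨fun c => g c, ⟨fun c _ => mem_Icc.1 (g c).2, fun c _ d _ h => g.injective (Subtype.ext h),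
    fun x hx => ⟨g.symm ⟨x, by simpa using hx⟩, trivial, by simp⟩⟩, fun w hw => ?_⟩
  refine (h4 w hw).imp_of_mem_imp fun x y hx hy h => ⟨F ⟨x, h3 w hw x hx⟩, F ⟨y, h3 w hw y hy⟩, ?_, ?_, h⟩ <;>
    exact (hg _ (mem_filter.2 ⟨mem_univ _, _, rfl⟩)).trans (hF.extend_apply _ _ _)

theorem of_solv {n : ℕ} {P : List (List ℕ)} (h : Solv n P) : ∃ f : ℕ → ℕ × ℕ,
    (∀ x ∈ Set.Icc 1 (n ^ 2), (f x).1 < n ∧ (f x).2 < n) ∧ (Set.Icc 1 (n ^ 2)).InjOn f ∧
    ∀ w ∈ P, w.IsChain fun x y => adj (f x) (f y) := by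
  classical
  obtain ⟨B, hB, h⟩ := h
  have hi : B.Injective := Set.injOn_univ.1 hB.injOn
  let f : ℕ → ℕ × ℕ := Function.extend B (fun c => (c.1, c.2)) 0
  have e : ∀ c, f (B c) = ((c.1 : ℕ), (c.2 : ℕ)) := fun c => hi.extend_apply _ _ c
  refine ⟨f, fun x hx => ?_, fun x hx y hy h => ?_, fun w hw => (h w hw).imp ?_⟩
  · obtain ⟨c, -, rfl⟩ := hB.surjOn hx; simp [e]
  · obtain ⟨c, -, rfl⟩ := hB.surjOn hx
    obtain ⟨d, -, rfl⟩ := hB.surjOn hy
    simp only [e, Prod.mk.injEq, Fin.val_inj] at h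
    rw [Prod.ext h.1 h.2]
  · rintro _ _ ⟨c, d, rfl, rfl, h⟩; rwa [e, e]

theorem inNP : InNP fun a : {a // Valid a} => Solv a.1.1.length a.1.2 := by
  refine InNP.of_cert' (γ := List (ℕ × ℕ)) (fun a L => L.length = a.1.1.length ^ 2 + 1 ∧ L.tail.Nodup ∧
    (∀ c ∈ L.tail, c.1 < a.1.1.length ∧ c.2 < a.1.1.length) ∧
    ∀ w ∈ a.1.2, ∀ p ∈ w.zip w.tail, adj (L.getD p.1 (0, 0)) (L.getD p.2 (0, 0)))
    (fun a => (size a ^ 2 + 1) * (6 * size a + 6) + 2)
    (by unfold adj Nat.dist; fun_prop) (by have := PB.size' (α := {a // Valid a}); fun_prop)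
    (fun a L ⟨h1, h2, h3, h4⟩ => ?_) fun a h => ?_
  · obtain ⟨c, L, rfl⟩ := List.exists_cons_of_length_pos (l := L) (by omega)
    simp only [List.length_cons, add_left_inj, List.tail_cons] at h1 h2 h3
    refine solv_of (Set.Icc 1 _) le_rfl (fun x => (c :: L).getD x (0, 0)) (fun x hx => ?_) (fun x hx y hy h => ?_)
      (fun w hw x hx => ((a.2.2 w hw).2.2 x hx)) fun w hw => ?_
    · obtain ⟨x, rfl⟩ : ∃ y, x = y + 1 := ⟨x - 1, by have := hx.1; omega⟩
      have : x < L.length := by have := hx.2; omega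
      simpa [this] using h3 _ (List.getElem_mem this)
    · obtain ⟨x, rfl⟩ : ∃ y, x = y + 1 := ⟨x - 1, by have := hx.1; omega⟩
      obtain ⟨y, rfl⟩ : ∃ x, y = x + 1 := ⟨y - 1, by have := hy.1; omega⟩
      have e1 : x < L.length := by have := hx.2; omega
      have e2 : y < L.length := by have := hy.2; omega
      simpa [e1, e2, h2.getElem_inj_iff] using h
    · rw [List.isChain_iff_getElem]
      intro i hi
      exact h4 w hw (w[i], w[i + 1]) (List.mem_iff_getElem.2 ⟨i, by simp; omega, by simp⟩)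
  · obtain ⟨f, f1, f2, f3⟩ := of_solv h
    have a1 : a.1.1.length ≤ size a := (length_le_size a.1.1).trans (by
      obtain ⟨⟨x, y⟩, h⟩ := a
      change size x ≤ size (x, y); rw [size_pair]; omega)
    have e : ∀ x ∈ Set.Icc 1 (a.1.1.length ^ 2), ((0, 0) :: (List.range' 1 (a.1.1.length ^ 2)).map f).getD x (0, 0) = f x :=
      fun x hx => by
        obtain ⟨x, rfl⟩ : ∃ y, x = y + 1 := ⟨x - 1, by have := hx.1; omega⟩
        have : x < a.1.1.length ^ 2 := hx.2
        simp [this, add_comm]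
    have e2 : ∀ x ∈ List.range' 1 (a.1.1.length ^ 2), x ∈ Set.Icc 1 (a.1.1.length ^ 2) := fun x hx => by
      simp at hx ⊢; omega
    refine ⟨(0, 0) :: (List.range' 1 (a.1.1.length ^ 2)).map f, ?_, by simp, ?_, ?_, fun w hw p hp => ?_⟩
    · refine (size_list_le (B := 6 * size a + 5) fun x hx => ?_).trans ?_
      · have : x.1 ≤ size a ∧ x.2 ≤ size a := by
          rcases List.mem_cons.1 hx with rfl | hx
          · simp
          · obtain ⟨y, hy, rfl⟩ := List.mem_map.1 hx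
            have := f1 y (e2 y hy); omega
        have := size_nat_le x.1; have := size_nat_le x.2
        obtain ⟨x, y⟩ := x
        rw [size_pair]; simp only at *; omega
      · have := Nat.pow_le_pow_left a1 2
        simp only [List.length_cons, List.length_map, List.length_range']
        exact Nat.add_le_add_right (Nat.mul_le_mul_right _ (by omega)) _
    · exact (List.nodup_range' 1).map_on fun x hx y hy h => f2 (e2 x hx) (e2 y hy) h
    · simp only [List.tail_cons, List.forall_mem_map]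
      exact fun x hx => f1 x (e2 x hx)
    · obtain ⟨i, hi, rfl⟩ := List.getElem_of_mem hp
      simp only [List.length_zip, List.length_tail] at hi
      simp only [List.getElem_zip, List.getElem_tail]
      rw [e _ ((a.2.2 w hw).2.2 _ (List.getElem_mem _)), e _ ((a.2.2 w hw).2.2 _ (List.getElem_mem _))]
      exact List.isChain_iff_getElem.1 (f3 w hw) i (by omega)

def co (b : Bool) (p : ℕ × ℕ) : ℤ := if b then p.1 else p.2

theorem adj_co (b : Bool) {c d : ℕ × ℕ} : adj c d ↔ (co b c ≠ co b d ∨ co (!b) c ≠ co (!b) d) ∧ co b c ≤ co b d + 1 ∧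
    co b d ≤ co b c + 1 ∧ co (!b) c ≤ co (!b) d + 1 ∧ co (!b) d ≤ co (!b) c + 1 := by
  cases b <;> simp [adj_iff, co] <;> omega

theorem ne_co (b : Bool) {c d : ℕ × ℕ} : c ≠ d ↔ (co b c ≠ co b d ∨ co (!b) c ≠ co (!b) d) := by
  cases b <;> simp [co, Prod.ext_iff] <;> omega

theorem nb {b : Bool} {u v p : ℕ × ℕ} (h : co b v = co b u) (h0 : adj u v) (h1 : adj u p) (h2 : adj v p) :
    (co (!b) p = co (!b) u ∨ co (!b) p = co (!b) v) ∧ (co b p = co b u + 1 ∨ co b p = co b u - 1) := by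
  simp only [adj_co b] at *; omega

theorem strip {n : ℕ} (hn : 3 ≤ n) (u v : ℕ → ℕ × ℕ) (h0 : ∀ t < n, adj (u t) (v t))
    (h1 : ∀ t, t + 1 < n → adj (u t) (u (t + 1)) ∧ adj (u t) (v (t + 1)) ∧ adj (v t) (u (t + 1)) ∧ adj (v t) (v (t + 1)))
    (h2 : ∀ t, t + 2 < n → u t ≠ u (t + 2) ∧ u t ≠ v (t + 2) ∧ v t ≠ u (t + 2) ∧ v t ≠ v (t + 2))
    (h3 : ∀ t < n, ∀ b, co b (u t) < n) : ∃ (b : Bool) (X : ℤ), (∀ t < n, co b (v t) = co b (u t) ∧
      (co (!b) (u t) = X ∧ co (!b) (v t) = X + 1 ∨ co (!b) (u t) = X + 1 ∧ co (!b) (v t) = X)) ∧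
      ((∀ t < n, co b (u t) = t) ∨ ∀ t < n, co b (u t) = n - 1 - t) := by
  have sy : ∀ {c d}, adj c d → adj d c := fun h => by rw [adj_iff] at *; omega
  obtain ⟨b, hb⟩ : ∃ b, co b (v 1) = co b (u 1) := by
    obtain ⟨a1, a2, a3, a4⟩ := h1 0 (by omega)
    obtain ⟨a5, -, a6, -⟩ := h1 1 (by omega)
    obtain ⟨a7, -, a8, -⟩ := h2 0 (by omega)
    have a9 := h0 0 (by omega); have a10 := h0 1 (by omega)
    by_contra h
    push Not at h
    have b1 := h true; have b2 := h false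
    have k : ∀ p, adj (u 1) p → adj (v 1) p → co true p = co true (u 1) ∧ co false p = co false (v 1) ∨
        co true p = co true (v 1) ∧ co false p = co false (u 1) := fun p c1 c2 => by
      simp only [adj_co true, Bool.not_true] at c1 c2 a10; omega
    have c1 := k _ (sy a1) (sy a2); have c2 := k _ (sy a3) (sy a4); have c3 := k _ a5 a6
    simp only [adj_co true, ne_co true, Bool.not_true, zero_add, one_add_one_eq_two] at a7 a8 a9 c3
    omega
  have key : ∀ t, t + 1 < n → ∀ s ≤ t + 1, co b (v s) = co b (u s) ∧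
      min (co (!b) (u s)) (co (!b) (v s)) = min (co (!b) (u 1)) (co (!b) (v 1)) ∧
      (co b (u 0) + 1 = co b (u 1) ∧ co b (u s) = co b (u 0) + s ∨
        co b (u 0) = co b (u 1) + 1 ∧ co b (u s) = co b (u 0) - s) := fun t => by
    induction t with
    | zero =>
      intro _ s hs
      obtain ⟨a1, a2, a3, a4⟩ := h1 0 (by omega)
      have c1 := nb hb (h0 1 (by omega)) (sy a1) (sy a2)
      have c2 := nb hb (h0 1 (by omega)) (sy a3) (sy a4)
      have c3 := (adj_co b).1 (h0 0 (by omega))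
      interval_cases s <;> omega
    | succ t ih =>
      intro ht s hs
      by_cases c : s ≤ t + 1
      · exact ih (by omega) s c
      · obtain rfl : s = t + 2 := by omega
        obtain ⟨a1, a2, a3⟩ := ih (by omega) t (by omega)
        obtain ⟨a4, a5, a6⟩ := ih (by omega) (t + 1) le_rfl
        obtain ⟨b1, b2, b3, b4⟩ := h1 (t + 1) (by omega)
        obtain ⟨b5, b6, b7, b8⟩ := h2 t (by omega)
        have c1 := nb a4 (h0 _ (by omega)) b1 b3
        have c2 := nb a4 (h0 _ (by omega)) b2 b4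
        have c3 := (adj_co b).1 (h0 (t + 2) (by omega))
        have c4 := (adj_co b).1 (h0 (t + 1) (by omega))
        have c5 := (adj_co b).1 (h0 t (by omega))
        rw [ne_co b] at b5 b6 b7 b8
        rw [show t + 1 + 1 = t + 2 from rfl] at c1 c2
        have d1 : co b (u (t + 2)) ≠ co b (u t) := by clear b6 b8 c2 c3 a3 a6; omega
        have d2 : co b (v (t + 2)) ≠ co b (u t) := by clear b5 b7 c1 c3 a3 a6; omega
        clear b5 b6 b7 b8
        have d3 : co b (u (t + 2)) = 2 * co b (u (t + 1)) - co b (u t) ∧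
            co b (v (t + 2)) = 2 * co b (u (t + 1)) - co b (u t) := by push_cast at *; omega
        refine ⟨by omega, by omega, by push_cast at *; omega⟩
  obtain ⟨k, rfl⟩ : ∃ k, n = k + 2 := ⟨n - 2, by omega⟩
  have k1 := key k (by omega)
  refine ⟨b, min (co (!b) (u 1)) (co (!b) (v 1)), fun t ht => ?_, ?_⟩
  · have := k1 t (by omega); have := (adj_co b).1 (h0 t ht); omega
  · have a1 := k1 (k + 1) le_rfl
    have a2 := h3 (k + 1) (by omega) b; have a3 := h3 0 (by omega) b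
    have a4 : ∀ p, 0 ≤ co b p := fun p => by unfold co; split_ifs <;> omega
    have a5 := a4 (u 0); have a6 := a4 (u (k + 1))
    by_cases c : co b (u 0) + 1 = co b (u 1)
    · exact .inl fun t ht => by have := k1 t (by omega); push_cast at *; omega
    · exact .inr fun t ht => by have := k1 t (by omega); push_cast at *; omega

end Pool.Agent.H.MP_406c0a_lc
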