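import Pool.Agent.H.MP_406c0a_lc.A

namespace Pool.Agent.H.MP_406c0a_lc

open Pool.Agent.Lib.CX Finset

def code (n : ℕ) (u : ℕ × ℕ) : ℕ := u.1 * n + u.2 + 1
def fr (m : ℕ) (u : ℕ × ℕ) : Prop := u.2 < 2 ∨ u.1 % 3 < 2 ∨ 3 * m ≤ u.1
instance (m u) : Decidable (fr m u) := by unfold fr; infer_instance
def nm (B s : ℕ) : ℕ × ℕ := (3 * (s / B) + 2, 2 + s % B)
def pre (L : List (List Unit)) (i : ℕ) : ℕ := ((L.take i).map List.length).sum
def cells (n : ℕ) : List (ℕ × ℕ) := List.range n ×ˢ List.range n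
def red (L : List (List Unit)) (m B : ℕ) : List (List ℕ) :=
  ((cells (B + 2) ×ˢ cells (B + 2)).filter fun p => fr m p.1 ∧ fr m p.2 ∧ adj p.1 p.2).map
    (fun p => [code (B + 2) p.1, code (B + 2) p.2]) ++
  (List.range L.length).map fun i => (L.getD i []).mapIdx fun t _ => code (B + 2) (nm B (pre L i + t))

theorem code_inj {n : ℕ} {u v : ℕ × ℕ} (hu : u.2 < n) (hv : v.2 < n) (h : code n u = code n v) : u = v := by
  have h1 : ∀ u : ℕ × ℕ, u.2 < n → (code n u - 1) / n = u.1 ∧ (code n u - 1) % n = u.2 := fun u hu => by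
    simp only [code, Nat.add_sub_cancel]
    rw [mul_comm, Nat.mul_add_div (by omega), Nat.mul_add_mod, Nat.div_eq_of_lt hu, Nat.mod_eq_of_lt hu]; simp
  exact Prod.ext (by rw [← (h1 u hu).1, h, (h1 v hv).1]) (by rw [← (h1 u hu).2, h, (h1 v hv).2])

theorem code_mem {n : ℕ} {u : ℕ × ℕ} (h1 : u.1 < n) (h2 : u.2 < n) : code n u ∈ Set.Icc 1 (n ^ 2) := by
  have := Nat.mul_le_mul_right n h1
  simp only [code, Set.mem_Icc, sq, Nat.succ_mul] at *; omega

theorem mem_red {L m B w} : w ∈ red L m B ↔ (∃ u v, (u.1 < B + 2 ∧ u.2 < B + 2) ∧ (v.1 < B + 2 ∧ v.2 < B + 2) ∧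
    fr m u ∧ fr m v ∧ adj u v ∧ w = [code (B + 2) u, code (B + 2) v]) ∨ ∃ i < L.length,
      w = (List.range (L.getD i []).length).map fun t => code (B + 2) (nm B (pre L i + t)) := by
  have : ∀ (l : List Unit) (f : ℕ → ℕ), l.mapIdx (fun t _ => f t) = (List.range l.length).map f := fun l f =>
    List.ext_getElem (by simp) (by simp)
  simp only [red, List.mem_append, List.mem_map, List.mem_filter, List.mem_range, this, cells]
  refine or_congr ⟨?_, ?_⟩ (by simp only [eq_comm])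
  · rintro ⟨⟨⟨a, b⟩, ⟨c, d⟩⟩, ⟨h1, h2⟩, rfl⟩
    simp at h1 h2
    exact ⟨(a, b), (c, d), h1.1, h1.2, h2.1, h2.2.1, h2.2.2, rfl⟩
  · rintro ⟨⟨a, b⟩, ⟨c, d⟩, h1, h2, h3, h4, h5, rfl⟩
    exact ⟨((a, b), (c, d)), ⟨by simpa using ⟨h1, h2⟩, by simp [h3, h4, h5]⟩, rfl⟩

theorem pre_eq (L : List (List Unit)) {i : ℕ} (h : i ≤ L.length) :
    pre L i = off (fun i => (L.getD i []).length) (fun _ => 0) i := by
  simp only [pre, off, filter_true, ← sum_len, List.length_take, min_eq_left h]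
  exact sum_congr rfl fun k hk => by simp [List.getD_eq_getElem?_getD, List.getElem?_take_of_lt (mem_range.1 hk)]

section
variable {L : List (List Unit)} {m B : ℕ} (h1 : ∀ x ∈ L, 2 ≤ x.length) (h2 : 0 < m) (h4 : 4 * m ≤ B)
  (h3 : (L.map List.length).sum = m * B)

include h3 in
theorem pre_lt {i t : ℕ} (hi : i < L.length) (ht : t < (L.getD i []).length) : pre L i + t < m * B := by
  have := off_le (a := fun i => (L.getD i []).length) (g := fun _ => 0) hi
  simp only [filter_true, sum_len, h3, ← pre_eq L hi.le] at this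
  omega

theorem pre_inj {i t j s : ℕ} (hi : i < L.length) (ht : t < (L.getD i []).length) (hj : j < L.length)
    (hs : s < (L.getD j []).length) (h : pre L i + t = pre L j + s) : i = j ∧ t = s := by
  rw [pre_eq L hi.le, pre_eq L hj.le] at h
  rcases lt_trichotomy i j with c | rfl | c
  · have := off_lt (a := fun i => (L.getD i []).length) (g := fun _ => 0) c rfl; omega
  · omega
  · have := off_lt (a := fun i => (L.getD i []).length) (g := fun _ => 0) c rfl; omega

include h2 h4 in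
theorem nm_lt {s : ℕ} (h : s < m * B) : (nm B s).1 < B + 2 ∧ (nm B s).2 < B + 2 ∧ ¬fr m (nm B s) := by
  have := Nat.div_lt_of_lt_mul (mul_comm m B ▸ h)
  have := Nat.mod_lt s (show B > 0 by omega)
  simp only [nm, fr]; omega

theorem nm_inj {s t : ℕ} (h : nm B s = nm B t) : s = t := by
  simp only [nm, Prod.mk.injEq] at h
  rw [← Nat.div_add_mod s B, ← Nat.div_add_mod t B, show s / B = t / B by omega, show s % B = t % B by omega]

include h1 h2 h3 h4

theorem valid_red : Valid (List.replicate (B + 2) (), red L m B) := by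
  refine ⟨by simp, fun w hw => ?_⟩
  simp only [List.length_replicate]
  rcases mem_red.1 hw with ⟨u, v, a1, a2, -, -, a5, rfl⟩ | ⟨i, hi, rfl⟩
  · refine ⟨by simp, ?_, ?_⟩
    · have : code (B + 2) u ≠ code (B + 2) v := fun h => by
        rw [code_inj a1.2 a2.2 h, adj_iff] at a5; omega
      simp [this]
    · simpa using ⟨code_mem a1.1 a1.2, code_mem a2.1 a2.2⟩
  · refine ⟨by simpa [hi] using h1 _ (List.getElem_mem hi), List.nodup_range.map_on fun x hx y hy h => ?_, ?_⟩
    · have := nm_inj (code_inj (nm_lt h2 h4 (pre_lt h3 hi (List.mem_range.1 hx))).2.1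
        (nm_lt h2 h4 (pre_lt h3 hi (List.mem_range.1 hy))).2.1 h)
      omega
    · simp only [List.forall_mem_map, List.mem_range]
      intro t ht
      have := nm_lt h2 h4 (pre_lt h3 hi ht)
      exact code_mem this.1 this.2.1

theorem fwd (h : Pack (· = ·) (fun i => (L.getD i []).length) L.length m B) : Solv (B + 2) (red L m B) := by
  classical
  obtain ⟨g, g1, g2⟩ := h
  set a := fun i => (L.getD i []).length with ha
  let J := {z : (ℕ × ℕ) ⊕ (ℕ × ℕ) // z.elim (fun u => (u.1 < B + 2 ∧ u.2 < B + 2) ∧ fr m u)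
    fun u => u.1 < L.length ∧ u.2 < a u.1}
  let N : J → ℕ × ℕ := fun z => z.1.elim id fun u => nm B (pre L u.1 + u.2)
  let F : J → ℕ × ℕ := fun z => z.1.elim id fun u => (3 * g u.1 + 2, 2 + off a g u.1 + u.2)
  have n1 : ∀ z, (N z).1 < B + 2 ∧ (N z).2 < B + 2 := by
    rintro ⟨u | u, h⟩
    · exact h.1
    · exact ⟨(nm_lt h2 h4 (pre_lt h3 h.1 h.2)).1, (nm_lt h2 h4 (pre_lt h3 h.1 h.2)).2.1⟩
  have n2 : N.Injective := by
    rintro ⟨u | u, h⟩ ⟨v | v, h'⟩ e
    · exact Subtype.ext (congrArg Sum.inl e)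
    · exact absurd (e ▸ h.2 : fr m (N ⟨.inr v, h'⟩)) (nm_lt h2 h4 (pre_lt h3 h'.1 h'.2)).2.2
    · exact absurd (e ▸ h'.2 : fr m (N ⟨.inr u, h⟩)) (nm_lt h2 h4 (pre_lt h3 h.1 h.2)).2.2
    · have := pre_inj h.1 h.2 h'.1 h'.2 (nm_inj e)
      exact Subtype.ext (congrArg Sum.inr (Prod.ext this.1 this.2))
  have n3 : (fun z => code (B + 2) (N z)).Injective := fun z y e => n2 (code_inj (n1 z).2 (n1 y).2 e)
  have b1 : ∀ i < L.length, off a g i + a i ≤ B := fun i hi => (off_le hi).trans (g2 _ (g1 i hi)).le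
  let f := Function.extend (fun z => code (B + 2) (N z)) F 0
  have e : ∀ z, f (code (B + 2) (N z)) = F z := fun z => n3.extend_apply _ _ z
  refine solv_of (Set.range fun z => code (B + 2) (N z)) ?_ f ?_ ?_ (fun w hw => ?_) fun w hw => ?_
  · rintro _ ⟨z, rfl⟩; exact code_mem (n1 z).1 (n1 z).2
  · rintro _ ⟨z, rfl⟩
    simp only [e]
    obtain ⟨u | u, h⟩ := z
    · exact h.1
    · have := g1 _ h.1; have := b1 _ h.1; have := h.2
      simp only [F, Sum.elim_inr]; omega
  · rintro _ ⟨z, rfl⟩ _ ⟨y, rfl⟩ h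
    simp only [e] at h
    suffices z = y by rw [this]
    obtain ⟨u | u, hz⟩ := z <;> obtain ⟨v | v, hy⟩ := y <;> simp only [F, Sum.elim_inr, Sum.elim_inl, id] at h
    · exact Subtype.ext (congrArg Sum.inl h)
    · have := g1 _ hy.1; have := hz.2; simp only [h, fr] at this; omega
    · have := g1 _ hz.1; have := hy.2; simp only [← h, fr] at this; omega
    · simp only [Prod.mk.injEq] at h
      have e1 := hz.2; have e2 := hy.2
      refine Subtype.ext (congrArg Sum.inr ?_)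
      rcases lt_trichotomy u.1 v.1 with c | c | c
      · have := off_lt (a := a) (g := g) c (by omega); omega
      · exact Prod.ext c (by rw [c] at h; omega)
      · have := off_lt (a := a) (g := g) c (by omega); omega
  · rcases mem_red.1 hw with ⟨u, v, a1, a2, a3, a4, -, rfl⟩ | ⟨i, hi, rfl⟩
    · simp only [List.forall_mem_cons, List.not_mem_nil, IsEmpty.forall_iff, implies_true, and_true]
      exact ⟨⟨⟨.inl u, a1, a3⟩, rfl⟩, ⟨⟨.inl v, a2, a4⟩, rfl⟩⟩
    · simp only [List.forall_mem_map, List.mem_range]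
      exact fun t ht => ⟨⟨.inr (i, t), hi, ht⟩, rfl⟩
  · rcases mem_red.1 hw with ⟨u, v, a1, a2, a3, a4, a5, rfl⟩ | ⟨i, hi, rfl⟩
    · rw [List.isChain_pair]
      exact (e ⟨.inl u, a1, a3⟩).symm ▸ (e ⟨.inl v, a2, a4⟩).symm ▸ a5
    · rw [List.isChain_iff_getElem]
      intro t ht
      simp only [List.length_map, List.length_range] at ht
      simp only [List.getElem_map, List.getElem_range]
      have e1 := e ⟨.inr (i, t), hi, Nat.lt_of_succ_lt ht⟩
      have e2 := e ⟨.inr (i, t + 1), hi, ht⟩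
      simp only [N, F, Sum.elim_inr] at e1 e2
      rw [e1, e2, adj_iff]; simp only; omega

theorem bwd (h : Solv (B + 2) (red L m B)) : Pack (· ≤ ·) (fun i => (L.getD i []).length) L.length m B := by
  obtain ⟨f, f1, f2, f3⟩ := of_solv h
  set n := B + 2 with hn
  obtain ⟨φ, hφ⟩ : ∃ φ : ℕ × ℕ → ℕ × ℕ, ∀ u, φ u = f (code n u) := ⟨_, fun _ => rfl⟩
  have p1 : ∀ u : ℕ × ℕ, u.1 < n → u.2 < n → ∀ b, 0 ≤ co b (φ u) ∧ co b (φ u) < n := fun u a1 a2 b => by
    have := f1 _ (code_mem a1 a2)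
    rw [← hφ] at this
    unfold co; split_ifs <;> omega
  have p2 : ∀ u v : ℕ × ℕ, u.1 < n → u.2 < n → v.1 < n → v.2 < n → φ u = φ v → u = v := fun u v a1 a2 a3 a4 h =>
    code_inj a2 a4 (f2 (code_mem a1 a2) (code_mem a3 a4) (by rwa [← hφ, ← hφ]))
  have p2' : ∀ a b c d : ℕ, a < n → b < n → c < n → d < n → (a ≠ c ∨ b ≠ d) → φ (a, b) ≠ φ (c, d) :=
    fun a b c d a1 a2 a3 a4 h e => by have := p2 _ _ a1 a2 a3 a4 e; simp at this; omega
  have p3 : ∀ a b c d : ℕ, a < n → b < n → c < n → d < n → fr m (a, b) → fr m (c, d) → adj (a, b) (c, d) →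
      adj (φ (a, b)) (φ (c, d)) := fun a b c d a1 a2 a3 a4 a5 a6 a7 => by
    have := f3 _ (mem_red.2 (.inl ⟨(a, b), (c, d), ⟨a1, a2⟩, ⟨a3, a4⟩, a5, a6, a7, rfl⟩))
    rwa [List.isChain_pair, ← hφ, ← hφ] at this
  obtain ⟨b, X, s1, s2⟩ := strip (n := n) (by omega) (fun t => φ (t, 0)) (fun t => φ (t, 1))
    (fun t ht => by apply p3 <;> first | omega | (simp only [fr, adj_iff]; omega))
    (fun t ht => by refine ⟨?_, ?_, ?_, ?_⟩ <;> apply p3 <;> first | omega | (simp only [fr, adj_iff]; omega))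
    (fun t ht => by refine ⟨?_, ?_, ?_, ?_⟩ <;> apply p2' <;> omega)
    fun t ht b => (p1 (t, 0) ht (by simp [hn]) b).2
  have t1 : ∀ x, x + 1 < n → (x % 3 = 0 ∨ 3 * m ≤ x) → (∀ t < n, co (!b) (φ (x + 1, t)) = co (!b) (φ (x, t)) ∧
      (co b (φ (x, t)) = co b (φ (x, 0)) ∧ co b (φ (x + 1, t)) = co b (φ (x + 1, 0)) ∨
        co b (φ (x, t)) = co b (φ (x + 1, 0)) ∧ co b (φ (x + 1, t)) = co b (φ (x, 0)))) ∧
      ((∀ t < n, co (!b) (φ (x, t)) = t) ∨ ∀ t < n, co (!b) (φ (x, t)) = n - 1 - t) := fun x hx hx' => by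
    obtain ⟨c, Y, u1, u2⟩ := strip (n := n) (by omega) (fun t => φ (x, t)) (fun t => φ (x + 1, t))
      (fun t ht => by apply p3 <;> first | omega | (simp only [fr, adj_iff]; omega))
      (fun t ht => by refine ⟨?_, ?_, ?_, ?_⟩ <;> apply p3 <;> first | omega | (simp only [fr, adj_iff]; omega))
      (fun t ht => by refine ⟨?_, ?_, ?_, ?_⟩ <;> apply p2' <;> omega)
      fun t ht b => (p1 (x, t) (by omega) ht b).2
    obtain rfl : c = !b := by
      by_contra hc
      obtain rfl : c = b := by simpa using hc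
      have := (u1 0 (by omega)).1
      rcases s2 with s2 | s2 <;> rw [s2 _ hx, s2 _ (by omega)] at this <;> push_cast at this <;> omega
    simp only [Bool.not_not] at u1
    refine ⟨fun t ht => ⟨(u1 t ht).1, ?_⟩, u2⟩
    have := (u1 t ht).2; have := (u1 0 (by omega)).2; omega
  obtain ⟨ρ, hρ⟩ : ∃ ρ : ℕ × ℕ → ℕ, (∀ r < n, ∀ q, co b q = co b (φ (r, 0)) → ρ q = r) ∧ (∀ q q', adj q q' →
      co b q < n → co b q' < n → ρ q ≤ ρ q' + 1) ∧ ∀ q, co b q < n → ρ q < n ∧ co b q = co b (φ (ρ q, 0)) := by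
    have a4 : ∀ p, 0 ≤ co b p := fun p => by unfold co; split_ifs <;> omega
    rcases s2 with s2 | s2
    · refine ⟨fun q => (co b q).toNat, fun r hr q e => by simp only; rw [e, s2 r hr]; simp, fun q q' e _ _ => ?_,
        fun q e => ?_⟩
      · rw [adj_co b] at e; simp only; omega
      · have := a4 q; simp only; rw [s2 _ (by omega)]; omega
    · refine ⟨fun q => (n - 1 - co b q).toNat, fun r hr q e => by simp only; rw [e, s2 r hr]; simp,
        fun q q' e _ _ => ?_, fun q e => ?_⟩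
      · rw [adj_co b] at e; simp only; omega
      · have := a4 q; simp only; rw [s2 _ (by omega)]; omega
  obtain ⟨r1, r2, r3⟩ := hρ
  have ext : ∀ q q', co b q = co b q' → co (!b) q = co (!b) q' → q = q' := fun q q' a1 a2 => by
    by_contra h; have := (ne_co b).1 h; omega
  have hX : X = 0 ∨ X = B := by
    obtain ⟨-, a1⟩ := t1 0 (by omega) (by omega)
    have := (s1 0 (by omega)).2
    rcases a1 with a1 | a1 <;> rw [a1 0 (by omega), a1 1 (by omega)] at this <;> push_cast [hn] at this <;> omega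
  have key : ∀ s < m * B, ρ (φ (nm B s)) % 3 = 2 ∧ ρ (φ (nm B s)) < 3 * m ∧ co (!b) (φ (nm B s)) ≠ X ∧
      co (!b) (φ (nm B s)) ≠ X + 1 := fun s hs => by
    obtain ⟨a1, a2, a3⟩ := nm_lt h2 h4 hs
    have a4 : ∀ r c, r < n → c < n → fr m (r, c) → φ (nm B s) ≠ φ (r, c) := fun r c b1 b2 b3 e =>
      a3 (p2 _ _ a1 a2 b1 b2 e ▸ b3)
    obtain ⟨a5, a6⟩ := r3 _ (p1 _ a1 a2 b).2
    have a7 := p1 _ a1 a2 (!b)
    generalize φ (nm B s) = q at *
    generalize ρ q = r at *
    have a8 : ∀ x, x + 1 < n → (x % 3 = 0 ∨ 3 * m ≤ x) → r ≠ x ∧ r ≠ x + 1 := fun x b1 b2 => by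
      obtain ⟨c1, c2⟩ := t1 x b1 b2
      obtain ⟨t, ht, c3⟩ : ∃ t < n, co (!b) (φ (x, t)) = co (!b) q := by
        rcases c2 with c2 | c2
        · exact ⟨(co (!b) q).toNat, by omega, by rw [c2 _ (by omega)]; omega⟩
        · exact ⟨(n - 1 - co (!b) q).toNat, by omega, by rw [c2 _ (by omega)]; omega⟩
      have d1 := mt (fun h => ext q _ h c3.symm) (a4 x t (by omega) ht (by simp only [fr]; omega))
      have d2 := mt (fun h => ext q _ h (c3.symm.trans (c1 t ht).1.symm)) (a4 (x + 1) t b1 ht (by simp only [fr]; omega))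
      have := (c1 t ht).2
      constructor <;> rintro rfl <;> omega
    have d1 := mt (ext q _ a6) (a4 r 0 a5 (by omega) (by simp [fr]))
    have d2 := mt (ext q _ (a6.trans (s1 r a5).1.symm)) (a4 r 1 a5 (by omega) (by simp [fr]))
    have := (s1 r a5).2
    refine ⟨?_, ?_, by omega, by omega⟩
    · by_contra c
      by_cases c1 : r % 3 = 0 ∧ r + 1 < n
      · exact (a8 r c1.2 (.inl c1.1)).1 rfl
      · exact (a8 (r - 1) (by omega) (by omega)).2 (by omega)
    · by_contra c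
      by_cases c1 : r + 1 < n
      · exact (a8 r c1 (by omega)).1 rfl
      · exact (a8 (r - 1) (by omega) (by omega)).2 (by omega)
  have len : ∀ i < L.length, 0 < (L.getD i []).length := fun i hi => by
    have := h1 _ (List.getElem_mem hi); simp [hi]; omega
  have con : ∀ i < L.length, ∀ t < (L.getD i []).length, ρ (φ (nm B (pre L i + t))) = ρ (φ (nm B (pre L i + 0))) :=
    fun i hi t => by
      induction t with
      | zero => simp
      | succ t ih =>
        intro ht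
        have a1 := List.isChain_iff_getElem.1 (f3 _ (mem_red.2 (.inr ⟨i, hi, rfl⟩))) t (by simpa using ht)
        simp only [List.getElem_map, List.getElem_range, ← hn, ← hφ] at a1
        have a2 := pre_lt h3 hi ht
        have a3 := pre_lt h3 hi (Nat.lt_of_succ_lt ht)
        have a4 := (p1 _ (nm_lt h2 h4 a2).1 (nm_lt h2 h4 a2).2.1 b).2
        have a5 := (p1 _ (nm_lt h2 h4 a3).1 (nm_lt h2 h4 a3).2.1 b).2
        have := r2 _ _ a1 a5 a4
        have := r2 _ _ (by rw [adj_iff] at a1 ⊢; omega) a4 a5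
        have := key _ a2; have := key _ a3
        rw [← ih (by omega)]; omega
  refine ⟨fun i => ρ (φ (nm B (pre L i + 0))) / 3, fun i hi => ?_, fun k hk => ?_⟩
  · have := key _ (pre_lt h3 hi (len i hi)); simp only; omega
  · have : ∀ (s : Finset ℕ) (a : ℕ → ℕ), ∑ i ∈ s, a i = (s.sigma fun i => range (a i)).card := by simp
    simp only
    rw [this]
    refine (card_le_card_of_injOn (t := Ico (if X = 0 then 2 else 0 : ℤ) (if X = 0 then n else B))
      (fun z => co (!b) (φ (nm B (pre L z.1 + z.2)))) (fun z hz => ?_) fun z hz y hy e => ?_).trans ?_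
    · simp only [coe_sigma, Set.mem_sigma_iff, mem_coe, mem_filter, mem_range] at hz
      have a2 := pre_lt h3 hz.1.1 hz.2
      have := key _ a2
      have := p1 _ (nm_lt h2 h4 a2).1 (nm_lt h2 h4 a2).2.1 (!b)
      simp only [coe_Ico, Set.mem_Ico]; split_ifs <;> omega
    · simp only [coe_sigma, Set.mem_sigma_iff, mem_coe, mem_filter, mem_range] at hz hy
      have a2 := pre_lt h3 hz.1.1 hz.2
      have a3 := pre_lt h3 hy.1.1 hy.2
      have a4 : ρ (φ (nm B (pre L z.1 + z.2))) = ρ (φ (nm B (pre L y.1 + y.2))) := by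
        have := con _ hz.1.1 _ hz.2; have := con _ hy.1.1 _ hy.2
        have := key _ a2; have := key _ a3; have := hz.1.2; have := hy.1.2
        omega
      have a5 := (r3 _ (p1 _ (nm_lt h2 h4 a2).1 (nm_lt h2 h4 a2).2.1 b).2).2
      have a6 := (r3 _ (p1 _ (nm_lt h2 h4 a3).1 (nm_lt h2 h4 a3).2.1 b).2).2
      have a7 := pre_inj hz.1.1 hz.2 hy.1.1 hy.2 (nm_inj (p2 _ _ (nm_lt h2 h4 a2).1 (nm_lt h2 h4 a2).2.1
        (nm_lt h2 h4 a3).1 (nm_lt h2 h4 a3).2.1 (ext _ _ (by rw [a5, a6, a4]) e)))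
      obtain ⟨z1, z2⟩ := z
      obtain ⟨y1, y2⟩ := y
      simp only at a7
      rw [a7.1, a7.2]
    · split_ifs <;> simp [hn]

end

end Pool.Agent.H.MP_406c0a_lc
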